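import Pool.Agent.Helper69.QB.Beta

/-!
Project QE, piece AD: adding `k - 1` to the concurrence.
-/

set_option autoImplicit false

namespace Pool.Agent.Helper69.QE

open Pool.Agent.Helper69.WV Pool.Agent.Helper53.BN Pool.Agent.Helper69.QB

private theorem Add_weights_two {k : ℕ} (a : k.Partition) (h : a.parts = {k - 1, 1}) :
    weights a = {k - 1} := by
  unfold weights
  rw [h, show ({k - 1, 1} : Multiset ℕ) = (k - 1) ::ₘ {1} from rfl,
    Multiset.powersetCard_cons, Multiset.powersetCard_one]
  rw [Multiset.powersetCard_eq_empty]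
  · simp
  · simp

private theorem Add_part_two (k : ℕ) (hk : 2 ≤ k) : ∃ a : k.Partition, a.parts = {k - 1, 1} := by
  refine ⟨⟨{k - 1, 1}, ?_, ?_⟩, rfl⟩
  · intro i hi
    simp only [Multiset.insert_eq_cons, Multiset.mem_cons, Multiset.mem_singleton] at hi
    omega
  · simp only [Multiset.insert_eq_cons, Multiset.sum_cons, Multiset.sum_singleton]
    omega

/-- The partition with the additional part `k - 1`. -/
def Add_part {k l : ℕ} (hk : 2 ≤ k) (p : l.Partition) : (l + (k - 1)).Partition where
  parts := (k - 1) ::ₘ p.parts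
  parts_pos := by
    intro i hi
    rcases Multiset.mem_cons.1 hi with rfl | hi
    · omega
    · exact p.parts_pos hi
  parts_sum := by
    rw [Multiset.sum_cons, p.parts_sum, Nat.add_comm]

/-- From a feasible point `(z, y)` for `l` the point `(z', y')` for `l + (k - 1)`: `z' = z` plus
`∑ p, y p` blocks with the multiplicities `[k - 1, 1]` (weights `{k - 1}`), and `y'` is the image of
`y` under `p ↦ p` with the additional part `k - 1` (an injective map of the partitions;
`y' q = ∑ p, if image p = q then y p else 0`). -/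
theorem feasible_add {k l : ℕ} (hk : 2 ≤ k) {z : k.Partition → ℕ} {y : l.Partition → ℕ}
    (h : Feasible k l z y) : ∃ (z' : k.Partition → ℕ) (y' : (l + (k - 1)).Partition → ℕ),
    Feasible k (l + (k - 1)) z' y' ∧ ∑ a, z' a = ∑ a, z a + ∑ p, y p ∧ ∑ p, y' p = ∑ p, y p := by
  classical
  obtain ⟨a₁, ha₁⟩ := Add_part_two k hk
  have hy : ∑ q : (l + (k - 1)).Partition, (∑ p : l.Partition,
      if q = Add_part hk p then y p else 0) = ∑ p, y p := by
    rw [Finset.sum_comm]
    refine Finset.sum_congr rfl fun p _ => ?_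
    rw [Finset.sum_ite_eq']
    simp
  have hz : ∑ a, (z a + if a = a₁ then ∑ p, y p else 0) = ∑ a, z a + ∑ p, y p := by
    rw [Finset.sum_add_distrib, Finset.sum_ite_eq']
    simp
  refine ⟨fun a => z a + if a = a₁ then ∑ p, y p else 0,
    fun q => ∑ p : l.Partition, if q = Add_part hk p then y p else 0, ⟨?_, ?_, ?_⟩, hz, hy⟩
  · intro a ha
    have hne : a ≠ a₁ := by
      rintro rfl
      rw [ha₁] at ha
      simp at ha
    simp [hne, h.1 a ha]
  · rw [hy]
    exact h.2.1
  · have e1 : ∑ a, (z a + if a = a₁ then ∑ p, y p else 0) • weights a =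
        ∑ a, z a • weights a + (∑ p, y p) • ({k - 1} : Multiset ℕ) := by
      simp only [add_smul, ite_smul, zero_smul]
      rw [Finset.sum_add_distrib, Finset.sum_ite_eq']
      simp only [Finset.mem_univ, if_true]
      rw [Add_weights_two a₁ ha₁]
    have e2 : ∑ q : (l + (k - 1)).Partition, (∑ p : l.Partition,
        if q = Add_part hk p then y p else 0) • q.parts =
        ∑ p : l.Partition, y p • ({k - 1} + p.parts) := by
      simp only [Finset.sum_smul, ite_smul, zero_smul]
      rw [Finset.sum_comm]
      refine Finset.sum_congr rfl fun p _ => ?_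
      rw [Finset.sum_ite_eq']
      simp only [Finset.mem_univ, if_true]
      rfl
    rw [e1, e2, h.2.2]
    simp only [smul_add, Finset.sum_add_distrib, ← Finset.sum_smul]
    rw [add_comm]

/-- From `feasible_add`, `le_beta` and the definition of `beta` as a supremum. -/
theorem beta_add (k l : ℕ) (hk : 2 ≤ k) : beta k l + 1 ≤ beta k (l + (k - 1)) := by
  rw [← le_sub_iff_add_le]
  obtain ⟨z₀, y₀, h₀, -, -⟩ := feasible_min k l hk
  refine csSup_le ⟨_, z₀, y₀, h₀, rfl⟩ ?_
  rintro x ⟨z, y, h, rfl⟩
  obtain ⟨z', y', h', hz, hy⟩ := feasible_add hk h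
  have h1 := le_beta hk h'
  have h2 : (0 : ℝ) < ((∑ p, y p : ℕ) : ℝ) := by exact_mod_cast h.2.1
  rw [hz, hy, Nat.cast_add, add_div, div_self h2.ne'] at h1
  linarith

theorem beta_add_mul (k l q : ℕ) (hk : 2 ≤ k) : beta k l + q ≤ beta k (l + q * (k - 1)) := by
  induction q with
  | zero => simp
  | succ q ih =>
    have h := beta_add k (l + q * (k - 1)) hk
    have e : l + (q + 1) * (k - 1) = l + q * (k - 1) + (k - 1) := by ring
    rw [e]
    push_cast
    linarith

end Pool.Agent.Helper69.QE
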