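import Pool.Agent.Helper69.QE.Per

/-!
Project QE, piece PF: the pattern inequality for `k = 4`.
-/

set_option autoImplicit false

namespace Pool.Agent.Helper69.QE

open Pool.Agent.Helper69.WV Pool.Agent.Helper53.BN Pool.Agent.Helper69.QB

/-- The list form of `weights_four`. -/
private theorem Four_list : ∀ (t : List ℕ), (∀ i ∈ t, 0 < i) → t.sum = 4 → 2 ≤ t.length →
    (Multiset.powersetCard 2 (t : Multiset ℕ)).map Multiset.prod = {3} ∨
    (Multiset.powersetCard 2 (t : Multiset ℕ)).map Multiset.prod = {4} ∨
    (Multiset.powersetCard 2 (t : Multiset ℕ)).map Multiset.prod = {1, 2, 2} ∨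
    (Multiset.powersetCard 2 (t : Multiset ℕ)).map Multiset.prod = Multiset.replicate 6 1
  | [], _, h, _ => by simp at h
  | [x], _, _, h => by simp at h
  | [x, y], hp, hs, _ => by
      have hx : 0 < x := hp x (by simp)
      have hy : 0 < y := hp y (by simp)
      simp at hs
      have hx4 : x < 4 := by omega
      obtain rfl : y = 4 - x := by omega
      clear hp hs
      interval_cases x <;> decide
  | [x, y, z], hp, hs, _ => by
      have hx : 0 < x := hp x (by simp)
      have hy : 0 < y := hp y (by simp)
      have hz : 0 < z := hp z (by simp)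
      simp at hs
      have hx4 : x < 3 := by omega
      have hy4 : y < 3 := by omega
      obtain rfl : z = 4 - x - y := by omega
      clear hp
      interval_cases x <;> interval_cases y <;> first | omega | decide
  | [x, y, z, w], hp, hs, _ => by
      have hx : 0 < x := hp x (by simp)
      have hy : 0 < y := hp y (by simp)
      have hz : 0 < z := hp z (by simp)
      have hw : 0 < w := hp w (by simp)
      simp at hs
      obtain rfl : x = 1 := by omega
      obtain rfl : y = 1 := by omega
      obtain rfl : z = 1 := by omega
      obtain rfl : w = 1 := by omega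
      decide
  | x :: y :: z :: w :: u :: r, hp, hs, _ => by
      have hx : 0 < x := hp x (by simp)
      have hy : 0 < y := hp y (by simp)
      have hz : 0 < z := hp z (by simp)
      have hw : 0 < w := hp w (by simp)
      have hu : 0 < u := hp u (by simp)
      simp at hs
      omega

/-- The weights of the partitions of `4` with at least two parts: `[3,1]`, `[2,2]`, `[2,1,1]`,
`[1,1,1,1]`. (The parts are at least one and at most three; card 2, 3 or 4; or list all
multisets.) -/
theorem weights_four (a : (4 : ℕ).Partition) (ha : 2 ≤ Multiset.card a.parts) :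
    weights a = {3} ∨ weights a = {4} ∨ weights a = {1, 2, 2} ∨
      weights a = Multiset.replicate 6 1 := by
  obtain ⟨s, hpos, hsum⟩ := a
  induction s using Quotient.inductionOn with
  | h t =>
    exact Four_list t (fun i hi => hpos hi) (by simpa using hsum) (by simpa using ha)

/-- The prices for `k = 4`, `l = 2 mod 3`. -/
noncomputable def h4 (r : ℕ) : ℝ := if r = 1 then 1 / 5 else if r = 2 then 2 / 5 else 0

/-- `per_super`, `beta_super`, `weights_four`: the values `per 3 h4` of `1, 2, 3, 4` are
`1/5, 2/5, 1, 6/5`. -/
theorem beta_four_le (l : ℕ) : beta 4 l ≤ per 3 h4 l := by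
  have p0 : per 3 h4 0 = 0 := by norm_num [per, h4]
  have p1 : per 3 h4 1 = 1 / 5 := by norm_num [per, h4]
  have p2 : per 3 h4 2 = 2 / 5 := by norm_num [per, h4]
  have p3 : per 3 h4 3 = 1 := by norm_num [per, h4]
  have p4 : per 3 h4 4 = 6 / 5 := by norm_num [per, h4]
  refine beta_super (by norm_num) (per 3 h4) p0 (per_super (by norm_num) h4 ?_ ?_) ?_
  · intro r s hrs
    have hr : r < 3 := by omega
    have hs : s < 3 := by omega
    interval_cases r <;> interval_cases s <;> first | omega | (norm_num [h4])
  · intro r s hr hs hrs
    interval_cases r <;> interval_cases s <;> first | omega | (norm_num [h4])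
  · intro a ha
    rcases weights_four a ha with h | h | h | h
    · rw [h]; simp [p3]
    · rw [h]; simp [p4]; norm_num
    · rw [h]; simp [p1, p2]; norm_num
    · rw [h]; simp [p1]; norm_num

end Pool.Agent.Helper69.QE
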