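import Pool.Agent.Helper69.QE.ResOne
import Pool.Agent.Helper69.QE.Four
import Pool.Agent.Helper69.QE.Add
import Pool.Agent.Helper69.QB.BetaSmall

/-!
Project QE: values of the optimum of the linear program.
-/

set_option autoImplicit false

namespace Pool.Agent.Helper69.QE

open Pool.Agent.Helper69.WV Pool.Agent.Helper53.BN Pool.Agent.Helper69.QB

theorem gg_nonneg {k r : ℕ} (hk : 3 ≤ k) (hr : r < k - 1) : 0 ≤ gg k r := by
  have hk' : (3 : ℝ) ≤ k := by exact_mod_cast hk
  have hr0 : (0 : ℝ) ≤ r := Nat.cast_nonneg _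
  have hr' : (r : ℝ) < k := by
    have : r < k := by omega
    exact_mod_cast this
  have h1 : 1 / (k : ℝ) ≤ 1 / ((k : ℝ) - r) :=
    one_div_le_one_div_of_le (by linarith) (by linarith)
  have h2 : 0 ≤ (r : ℝ) / (k * (k - 1)) := div_nonneg hr0 (by nlinarith)
  unfold gg
  linarith

theorem beta_le_one (k l : ℕ) (hk : 3 ≤ k) : beta k l ≤ per (k - 1) (gg k) l := by
  have hn : 0 < k - 1 := by omega
  have hk' : (3 : ℝ) ≤ k := by exact_mod_cast hk
  refine beta_super (by omega) (per (k - 1) (gg k)) ?_ ?_ ?_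
  · unfold per gg
    simp
  · exact per_super hn (gg k) (fun r s h => gg_one hk h) (fun r s hr hs h => gg_two hk hr hs h)
  · intro a ha
    by_cases h : ∀ w ∈ weights a, w < k - 1
    · refine (pattern_one hk a ha h).trans (le_of_eq ?_)
      congr 1
      refine Multiset.map_congr rfl fun w hw => ?_
      have hw' := h w hw
      unfold per
      rw [Nat.div_eq_of_lt hw', Nat.mod_eq_of_lt hw', Nat.cast_zero, zero_add]
    · push Not at h
      obtain ⟨w, hw, hwn⟩ := h
      exact per_big hn (gg k) (fun r hr => gg_nonneg hk hr) _ hw hwn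

/-- The optimum for the concurrences `1` modulo `k - 1`. -/
theorem beta_res_one (k q : ℕ) (hk : 3 ≤ k) :
    beta k (1 + q * (k - 1)) = q + 2 / ((k : ℝ) * ((k : ℝ) - 1)) := by
  have hk' : (3 : ℝ) ≤ k := by exact_mod_cast hk
  have hn : 1 < k - 1 := by omega
  refine le_antisymm ?_ ?_
  · refine (beta_le_one k _ hk).trans (le_of_eq ?_)
    unfold per gg
    rw [Nat.add_mul_div_right _ _ (by omega), Nat.div_eq_of_lt hn, Nat.add_mul_mod_self_right,
      Nat.mod_eq_of_lt hn]
    have h1 : (k : ℝ) ≠ 0 := by linarith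
    have h2 : (k : ℝ) - 1 ≠ 0 := by linarith
    push_cast
    field_simp
    ring
  · have h1 := beta_add_mul k 1 q (by omega)
    have h2 := beta_small k 1 le_rfl (by norm_num) (by omega)
    have h3 : 2 * ((1 : ℕ) : ℝ) / (((k : ℝ) - ((1 : ℕ) : ℝ)) * ((k : ℝ) + ((1 : ℕ) : ℝ) - 1)) =
        2 / ((k : ℝ) * ((k : ℝ) - 1)) := by
      rw [show (k : ℝ) + ((1 : ℕ) : ℝ) - 1 = k by push_cast; ring, Nat.cast_one, mul_one,
        mul_comm]
    rw [h2, h3] at h1
    linarith

/-- The optimum for `k = 4`. -/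
theorem beta_four (q : ℕ) : beta 4 (3 * q) = q ∧ beta 4 (3 * q + 1) = q + 1 / 6 ∧
    beta 4 (3 * q + 2) = q + 2 / 5 := by
  refine ⟨?_, ?_, ?_⟩
  · have h := beta_eq 4 (3 * q) (by norm_num) (Dvd.intro _ rfl)
    rw [h]
    push_cast
    ring
  · have h := beta_res_one 4 q (by norm_num)
    have e : 1 + q * (4 - 1) = 3 * q + 1 := by omega
    rw [e] at h
    rw [h]
    norm_num
  · refine le_antisymm ?_ ?_
    · refine (beta_four_le _).trans (le_of_eq ?_)
      unfold per h4
      have e1 : (3 * q + 2) / 3 = q := by omega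
      have e2 : (3 * q + 2) % 3 = 2 := by omega
      rw [e1, e2]
      norm_num
    · have h1 := beta_add_mul 4 2 q (by norm_num)
      have h2 := beta_small 4 2 (by norm_num) (by norm_num) (by norm_num)
      have e : 2 + q * (4 - 1) = 3 * q + 2 := by omega
      rw [e, h2] at h1
      refine le_trans (le_of_eq ?_) h1
      norm_num
      ring

end Pool.Agent.Helper69.QE
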