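import Pool.Agent.Helper69.QB.Beta

/-!
Project QE, piece DU: upper bounds for the optimum of the linear program by prices.
-/

set_option autoImplicit false

namespace Pool.Agent.Helper69.QE

open Pool.Agent.Helper69.WV Pool.Agent.Helper53.BN Pool.Agent.Helper69.QB

/-- Weak duality: for a feasible point
`∑ a, z a ≤ ∑ a, z a * ((weights a).map π).sum = ∑ p, y p * (p.parts.map π).sum ≤ x ∑ p, y p`
(the equality is the image of the third condition of `Feasible` under the additive map
`s ↦ (s.map π).sum`). The set in the definition of `beta` is not empty (`feasible_min`). -/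
theorem beta_dual {k l : ℕ} (hk : 2 ≤ k) (π : ℕ → ℝ) (x : ℝ)
    (h1 : ∀ a : k.Partition, 2 ≤ Multiset.card a.parts → 1 ≤ ((weights a).map π).sum)
    (h2 : ∀ p : l.Partition, (p.parts.map π).sum ≤ x) : beta k l ≤ x := by
  obtain ⟨z₀, y₀, h₀, -, -⟩ := feasible_min k l hk
  refine csSup_le ⟨_, z₀, y₀, h₀, rfl⟩ ?_
  rintro w ⟨z, y, ⟨hz, hy, hzy⟩, rfl⟩
  have hy' : (0 : ℝ) < ((∑ p, y p : ℕ) : ℝ) := by exact_mod_cast hy
  rw [div_le_iff₀ hy']
  have e1 := congrArg (fun s : Multiset ℕ => (s.map π).sum) hzy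
  have hφ : ∀ s : Multiset ℕ, (s.map π).sum =
      (Multiset.sumAddMonoidHom.comp (Multiset.mapAddMonoidHom π)) s := fun s => rfl
  simp only [hφ, map_sum, map_nsmul] at e1
  simp only [← hφ, nsmul_eq_mul] at e1
  push_cast
  calc ∑ a, (z a : ℝ) ≤ ∑ a, (z a : ℝ) * ((weights a).map π).sum := by
        refine Finset.sum_le_sum fun a _ => ?_
        by_cases ha : Multiset.card a.parts ≤ 1
        · rw [hz a ha]
          simp
        · have h3 := h1 a (by omega)
          have h4 : (0 : ℝ) ≤ (z a : ℝ) := Nat.cast_nonneg _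
          nlinarith
    _ = ∑ p, (y p : ℝ) * (p.parts.map π).sum := e1
    _ ≤ ∑ p, (y p : ℝ) * x := by
        refine Finset.sum_le_sum fun p _ => ?_
        exact mul_le_mul_of_nonneg_left (h2 p) (Nat.cast_nonneg _)
    _ = x * ∑ p, (y p : ℝ) := by
        rw [← Finset.sum_mul, mul_comm]

/-- A superadditive function `H` with `H 0 = 0` has `(s.map H).sum ≤ H s.sum` (induction on the
multiset), so it can be used as a price in `beta_dual`. -/
theorem beta_super {k l : ℕ} (hk : 2 ≤ k) (H : ℕ → ℝ) (h0 : H 0 = 0)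
    (hH : ∀ i j, H i + H j ≤ H (i + j))
    (h1 : ∀ a : k.Partition, 2 ≤ Multiset.card a.parts → 1 ≤ ((weights a).map H).sum) :
    beta k l ≤ H l := by
  refine beta_dual hk H (H l) h1 fun p => ?_
  have key : ∀ s : Multiset ℕ, (s.map H).sum ≤ H s.sum := by
    intro s
    induction s using Multiset.induction_on with
    | empty => simp [h0]
    | cons a s ih =>
      rw [Multiset.map_cons, Multiset.sum_cons, Multiset.sum_cons]
      have := hH a s.sum
      linarith
  have h3 := key p.parts
  rwa [p.parts_sum] at h3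

end Pool.Agent.Helper69.QE
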