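import Pool.Agent.Helper69.QE.Dual

/-!
Project QE, piece PE: periodic prices.
-/

set_option autoImplicit false

namespace Pool.Agent.Helper69.QE

open Pool.Agent.Helper69.WV Pool.Agent.Helper53.BN Pool.Agent.Helper69.QB

/-- The periodic extension of a function on the residues modulo `n`. -/
noncomputable def per (n : ℕ) (h : ℕ → ℝ) (w : ℕ) : ℝ := (w / n : ℕ) + h (w % n)

/-- `i = n (i / n) + i % n`; for `r = i % n`, `s = j % n` the assumptions give
`h r + h s ≤ h (r + s)` if `r + s < n`, and `h r + h s ≤ 1 + h (r + s - n)` otherwise. -/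
theorem per_super {n : ℕ} (hn : 0 < n) (h : ℕ → ℝ)
    (h1 : ∀ r s, r + s < n → h r + h s ≤ h (r + s))
    (h2 : ∀ r s, r < n → s < n → n ≤ r + s → h r + h s ≤ 1 + h (r + s - n)) (i j : ℕ) :
    per n h i + per n h j ≤ per n h (i + j) := by
  have hr : i % n < n := Nat.mod_lt _ hn
  have hs : j % n < n := Nat.mod_lt _ hn
  unfold per
  rcases Nat.lt_or_ge (i % n + j % n) n with hlt | hge
  · have e1 : (i + j) / n = i / n + j / n := by
      rw [Nat.add_div hn, if_neg (by omega), Nat.add_zero]
    have e2 : (i + j) % n = i % n + j % n := Nat.add_mod_of_add_mod_lt hlt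
    have h3 := h1 _ _ hlt
    rw [e1, e2]
    push_cast
    linarith
  · have e1 : (i + j) / n = i / n + j / n + 1 := by
      rw [Nat.add_div hn, if_pos hge]
    have e2 : (i + j) % n = i % n + j % n - n := by
      have := Nat.add_mod_add_of_le_add_mod hge
      omega
    have h3 := h2 _ _ hr hs hge
    rw [e1, e2]
    push_cast
    linarith

/-- If `1 ≤ w / n` for one of the weights then the condition on the patterns holds for `per n h`
with `h ≥ 0` on the residues (`Multiset.single_le_sum` or `Multiset.sum_map_le...`). -/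
theorem per_big {n : ℕ} (hn : 0 < n) (h : ℕ → ℝ) (hpos : ∀ r, r < n → 0 ≤ h r) (s : Multiset ℕ) {w : ℕ}
    (hw : w ∈ s) (hwn : n ≤ w) : 1 ≤ (s.map (per n h)).sum := by
  have h0 : ∀ v, 0 ≤ per n h v := fun v =>
    add_nonneg (Nat.cast_nonneg _) (hpos _ (Nat.mod_lt _ hn))
  have h1 : (1 : ℝ) ≤ per n h w := by
    have h2 : 1 ≤ w / n := (Nat.one_le_div_iff hn).2 hwn
    have h3 : (1 : ℝ) ≤ ((w / n : ℕ) : ℝ) := by exact_mod_cast h2
    have h4 := hpos _ (Nat.mod_lt w hn)
    unfold per
    linarith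
  refine h1.trans (Multiset.single_le_sum ?_ _ (Multiset.mem_map_of_mem _ hw))
  intro x hx
  obtain ⟨v, -, rfl⟩ := Multiset.mem_map.1 hx
  exact h0 v

end Pool.Agent.Helper69.QE
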