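import Pool.Agent.Helper69.QE.Per

/-!
Project QE, piece RA: the prices for the residue one.
-/

set_option autoImplicit false

namespace Pool.Agent.Helper69.QE

open Pool.Agent.Helper69.WV Pool.Agent.Helper53.BN Pool.Agent.Helper69.QB

/-- The prices for `l = 1 mod (k - 1)`: `g x = x / (k (k - 1)) + 1 / (k - x) - 1 / k`. -/
noncomputable def gg (k x : ℕ) : ℝ := (x : ℝ) / (k * (k - 1)) + 1 / ((k : ℝ) - x) - 1 / k

/-- `1/(k-r) - 1/k = r/(k(k-r))`, and the denominators decrease. -/
theorem gg_one {k r s : ℕ} (hk : 3 ≤ k) (h : r + s < k - 1) :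
    gg k r + gg k s ≤ gg k (r + s) := by
  have h0 : r + s + 2 ≤ k := by omega
  have h1 : (r : ℝ) + s + 2 ≤ k := by exact_mod_cast h0
  have hr : (0 : ℝ) ≤ r := Nat.cast_nonneg r
  have hs : (0 : ℝ) ≤ s := Nat.cast_nonneg s
  unfold gg
  push_cast
  generalize (k : ℝ) = K at *
  generalize (r : ℝ) = R at *
  generalize (s : ℝ) = S at *
  have p1 : 0 < K - R := by linarith
  have p2 : 0 < K := by linarith
  have p3 : 0 < K - (R + S) := by linarith
  have p4 : 0 < K - S := by linarith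
  have e1 : 1 / (K - R) - 1 / K = R / ((K - R) * K) := by
    field_simp
    ring
  have e2 : 1 / (K - (R + S)) - 1 / (K - S) = R / ((K - (R + S)) * (K - S)) := by
    field_simp
    ring
  have e3 : R / ((K - R) * K) ≤ R / ((K - (R + S)) * (K - S)) := by
    refine div_le_div_of_nonneg_left hr (mul_pos p3 p4) ?_
    exact mul_le_mul (by linarith) (by linarith) p4.le p1.le
  have e4 : (R + S) / (K * (K - 1)) = R / (K * (K - 1)) + S / (K * (K - 1)) := add_div _ _ _
  rw [e4]
  linarith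

/-- With `A = k - r`, `B = k - s`, `A, B ≥ 2`, `t = r + s - (k - 1)`, `k - t = A + B - 1`: the
inequality is `1/A + 1/B ≤ 1 + 1/(A + B - 1)`, and `A B ≥ A + B - 1`. -/
theorem gg_two {k r s : ℕ} (hk : 3 ≤ k) (hr : r < k - 1) (hs : s < k - 1) (h : k - 1 ≤ r + s) :
    gg k r + gg k s ≤ 1 + gg k (r + s - (k - 1)) := by
  have e0 : ((r + s - (k - 1) : ℕ) : ℝ) = (r : ℝ) + s - (k - 1) := by
    rw [Nat.cast_sub h, Nat.cast_sub (by omega)]
    push_cast
    ring
  have h1 : (r : ℝ) + 2 ≤ k := by exact_mod_cast (by omega : r + 2 ≤ k)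
  have h2 : (s : ℝ) + 2 ≤ k := by exact_mod_cast (by omega : s + 2 ≤ k)
  have h3 : (3 : ℝ) ≤ k := by exact_mod_cast hk
  have hr0 : (0 : ℝ) ≤ r := Nat.cast_nonneg r
  have hs0 : (0 : ℝ) ≤ s := Nat.cast_nonneg s
  unfold gg
  rw [e0]
  generalize (k : ℝ) = K at *
  generalize (r : ℝ) = R at *
  generalize (s : ℝ) = S at *
  obtain ⟨A, hA⟩ : ∃ A, A = K - R := ⟨_, rfl⟩
  obtain ⟨B, hB⟩ : ∃ B, B = K - S := ⟨_, rfl⟩
  have a2 : 2 ≤ A := by linarith
  have b2 : 2 ≤ B := by linarith
  have c1 : K - (R + S - (K - 1)) = A + B - 1 := by rw [hA, hB]; ring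
  have e1 : 1 / A + 1 / B = (A + B) / (A * B) := by
    have : A ≠ 0 := by linarith
    have : B ≠ 0 := by linarith
    field_simp
    ring
  have e2 : 1 + 1 / (A + B - 1) = (A + B) / (A + B - 1) := by
    have : A + B - 1 ≠ 0 := by
      have : 0 < A + B - 1 := by linarith
      exact this.ne'
    field_simp
    ring
  have e3 : (A + B) / (A * B) ≤ (A + B) / (A + B - 1) := by
    refine div_le_div_of_nonneg_left (by linarith) (by linarith) ?_
    nlinarith
  have e4 : (R + S - (K - 1)) / (K * (K - 1)) = R / (K * (K - 1)) + S / (K * (K - 1)) - 1 / K := by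
    have : K ≠ 0 := by linarith
    have : K - 1 ≠ 0 := by
      have : 0 < K - 1 := by linarith
      exact this.ne'
    field_simp
  rw [c1, ← hA, ← hB, e4]
  linarith

/-- `g (b x) - b g x = b (b - 1) x ^ 2 / (k (k - b x) (k - x))`, and
`x (k - 1) (k - b) ≥ (k - b x) (k - x)`. -/
theorem gg_mul {k b x : ℕ} (hk : 3 ≤ k) (hb : 1 ≤ b) (hx : 1 ≤ x) (h : b * x < k - 1) :
    b * gg k x + (x : ℝ) * (b * (b - 1)) / (k * (k - 1) * (k - b)) ≤ gg k (b * x) := by
  have h0 : b * x + 2 ≤ k := by omega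
  have h1 : (b : ℝ) * x + 2 ≤ k := by exact_mod_cast h0
  have hb1 : (1 : ℝ) ≤ b := by exact_mod_cast hb
  have hx1 : (1 : ℝ) ≤ x := by exact_mod_cast hx
  unfold gg
  push_cast
  generalize (k : ℝ) = K at *
  generalize (b : ℝ) = b at *
  generalize (x : ℝ) = x at *
  have bx : b ≤ b * x := by nlinarith
  have xb : x ≤ b * x := by nlinarith
  have p1 : 0 < K - b * x := by linarith
  have p2 : 0 < K := by linarith
  have p3 : 0 < K - x := by linarith
  have p4 : 0 < K - b := by linarith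
  have p5 : 0 < K - 1 := by linarith
  have e1 : b * x / (K * (K - 1)) + 1 / (K - b * x) - 1 / K -
      b * (x / (K * (K - 1)) + 1 / (K - x) - 1 / K) =
      b * (b - 1) * x ^ 2 / (K * ((K - b * x) * (K - x))) := by
    field_simp
    ring
  have e2 : x * (b * (b - 1)) / (K * (K - 1) * (K - b)) ≤
      b * (b - 1) * x ^ 2 / (K * ((K - b * x) * (K - x))) := by
    rw [div_le_div_iff₀ (by positivity) (by positivity)]
    have q1 : (K - b * x) * (K - x) ≤ (K - b) * (K - 1) :=
      mul_le_mul (by linarith) (by linarith) p3.le p4.le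
    have q2 : (K - b) * (K - 1) ≤ x * ((K - b) * (K - 1)) := by
      have := mul_pos p4 p5
      nlinarith
    have q3 : 0 ≤ b * (b - 1) * x * K := by
      have : 0 ≤ b - 1 := by linarith
      positivity
    have q4 := mul_le_mul_of_nonneg_left (q1.trans q2) q3
    nlinarith [q4]
  linarith

end Pool.Agent.Helper69.QE
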