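import Pool.Agent.Helper69.QE.ResA

/-!
Project QE, piece RE: the pattern inequality for the residue one.
-/

set_option autoImplicit false

namespace Pool.Agent.Helper69.QE

open Pool.Agent.Helper69.WV Pool.Agent.Helper53.BN Pool.Agent.Helper69.QB

private noncomputable def ResOne_F (k : ℕ) (S : ℝ) (x : ℕ) : ℝ :=
  gg k x * (S - x) + (x : ℝ) * (x - 1) / (k * (k - 1) * (k - x)) * (S - x)

private theorem ResOne_ind {k : ℕ} (hk : 3 ≤ k) (s : Multiset ℕ) (hs : ∀ x ∈ s, 1 ≤ x)
    (h : ∀ w ∈ (s.powersetCard 2).map Multiset.prod, w < k - 1) :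
    (s.map (ResOne_F k (s.sum : ℕ))).sum ≤
      2 * (((s.powersetCard 2).map Multiset.prod).map (gg k)).sum := by
  induction s using Multiset.induction_on with
  | empty => simp
  | cons a t ih =>
    have e1 : ((a ::ₘ t).powersetCard 2).map Multiset.prod =
        (t.powersetCard 2).map Multiset.prod + t.map (fun x => a * x) := by
      rw [Multiset.powersetCard_cons, Multiset.map_add, Multiset.powersetCard_one,
        Multiset.map_map, Multiset.map_map]
      congr 1
      refine Multiset.map_congr rfl fun x _ => ?_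
      simp
    rw [e1] at h ⊢
    have ha : 1 ≤ a := hs a (Multiset.mem_cons_self a t)
    have ht : ∀ x ∈ t, 1 ≤ x := fun x hx => hs x (Multiset.mem_cons_of_mem hx)
    have ih' := ih ht fun w hw => h w (Multiset.mem_add.2 (Or.inl hw))
    have hm : ∀ x ∈ t, a * x < k - 1 := fun x hx =>
      h _ (Multiset.mem_add.2 (Or.inr (Multiset.mem_map_of_mem (fun x => a * x) hx)))
    set T : ℝ := ((t.sum : ℕ) : ℝ) with hT
    set ca : ℝ := gg k a + (a : ℝ) * (a - 1) / (k * (k - 1) * (k - a)) with hca
    have e2 : ((a ::ₘ t).map (ResOne_F k ((a ::ₘ t).sum : ℕ))).sum =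
        (t.map (ResOne_F k T)).sum + (t.map fun x : ℕ => (x : ℝ) * ca +
          ((a : ℝ) * gg k x + (a : ℝ) * ((x : ℝ) * (x - 1) / (k * (k - 1) * (k - x))))).sum := by
      rw [Multiset.map_cons, Multiset.sum_cons, Multiset.sum_cons, Nat.cast_add, ← hT,
        Multiset.sum_map_add, Multiset.sum_map_mul_right]
      have e3 : (t.map fun x : ℕ => (x : ℝ)).sum = T := by
        rw [hT, Nat.cast_multiset_sum]
      have e4 : (t.map (ResOne_F k ((a : ℝ) + T))).sum = (t.map (ResOne_F k T)).sum +
          (t.map fun x : ℕ => (a : ℝ) * gg k x +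
            (a : ℝ) * ((x : ℝ) * (x - 1) / (k * (k - 1) * (k - x)))).sum := by
        rw [← Multiset.sum_map_add]
        refine congrArg Multiset.sum (Multiset.map_congr rfl fun x _ => ?_)
        unfold ResOne_F
        ring
      rw [e3, e4]
      have e5 : ResOne_F k ((a : ℝ) + T) a = T * ca := by
        rw [hca]
        unfold ResOne_F
        ring
      rw [e5]
      ring
    rw [e2, Multiset.map_add, Multiset.sum_add, mul_add]
    refine add_le_add ih' ?_
    rw [← Multiset.sum_map_mul_left, Multiset.map_map]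
    refine Multiset.sum_map_le_sum_map _ _ fun x hx => ?_
    have h1 := gg_mul (k := k) (b := a) (x := x) hk ha (ht x hx) (hm x hx)
    have h2 := gg_mul (k := k) (b := x) (x := a) hk (ht x hx) ha (by rw [mul_comm]; exact hm x hx)
    rw [mul_comm x a] at h2
    have h3 : (x : ℝ) * ca + ((a : ℝ) * gg k x + (a : ℝ) * ((x : ℝ) * (x - 1) /
        (k * (k - 1) * (k - x)))) = (a * gg k x + (x : ℝ) * (a * (a - 1)) /
        (k * (k - 1) * (k - a))) + (x * gg k a + (a : ℝ) * (x * (x - 1)) /
        (k * (k - 1) * (k - x))) := by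
      rw [hca]
      ring
    rw [h3]
    simp only [Function.comp]
    linarith

/-- The pattern inequality. For a multiset `s` of positive integers all products of two of which are
`< k - 1`, with the sum `S`:
`2 * (sum of g over the products of the pairs) ≥ ∑ x ∈ s, g x * (S - x) +
∑ b ∈ s, b (b - 1) (S - b) / (k (k - 1) (k - b))`
by induction on `s` (`Multiset.powersetCard_cons`), using `gg_mul` for `(b, x)` and `(x, b)`. For
`S = k` the right side is `∑ x (k - x)/(k (k - 1)) + ∑ x / k + ∑ b (b - 1)/(k (k - 1)) = 2`, since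
`g x * (k - x) = x (k - x)/(k (k - 1)) + x / k`. -/
theorem pattern_one {k : ℕ} (hk : 3 ≤ k) (a : k.Partition) (ha : 2 ≤ Multiset.card a.parts)
    (h : ∀ w ∈ weights a, w < k - 1) : 1 ≤ ((weights a).map (gg k)).sum := by
  have h1 := ResOne_ind hk a.parts (fun x hx => a.parts_pos hx) h
  rw [a.parts_sum] at h1
  have hk0 : (0 : ℝ) < k := by
    have : (0 : ℕ) < k := by omega
    exact_mod_cast this
  have hk1 : (0 : ℝ) < (k : ℝ) - 1 := by
    have : (3 : ℝ) ≤ k := by exact_mod_cast hk
    linarith
  have hlt : ∀ x ∈ a.parts, x < k := by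
    intro x hx
    obtain ⟨t, ht⟩ := Multiset.exists_cons_of_mem hx
    have h2 : Multiset.card t ≠ 0 := by
      intro h0
      rw [ht, Multiset.card_cons, h0] at ha
      omega
    obtain ⟨y, hy⟩ := Multiset.card_pos_iff_exists_mem.1 (Nat.pos_of_ne_zero h2)
    obtain ⟨u, hu⟩ := Multiset.exists_cons_of_mem hy
    have h3 : 0 < y := a.parts_pos (by rw [ht, hu]; simp)
    have h4 := a.parts_sum
    rw [ht, hu, Multiset.sum_cons, Multiset.sum_cons] at h4
    omega
  have h2 : (a.parts.map (ResOne_F k (k : ℝ))).sum = (a.parts.map fun x : ℕ => (x : ℝ) * (2 / k)).sum := by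
    refine congrArg Multiset.sum (Multiset.map_congr rfl fun x hx => ?_)
    have hx1 : (0 : ℝ) < (k : ℝ) - x := by
      have : (x : ℝ) < k := by exact_mod_cast hlt x hx
      linarith
    unfold ResOne_F gg
    field_simp
    ring
  have h3 : (a.parts.map fun x : ℕ => (x : ℝ)).sum = k := by
    have h4 := a.parts_sum
    calc (a.parts.map fun x : ℕ => (x : ℝ)).sum = ((a.parts.sum : ℕ) : ℝ) := by
          rw [Nat.cast_multiset_sum]
      _ = k := by rw [h4]
  rw [h2, Multiset.sum_map_mul_right, h3] at h1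
  have h5 : (k : ℝ) * (2 / k) = 2 := by field_simp
  rw [h5] at h1
  unfold weights
  linarith

end Pool.Agent.Helper69.QE
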